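import Pool.Agent.UEX.Stmts

/-!
# Block UEX: divisor sums (module AVG)
-/

set_option autoImplicit false

namespace Pool.Agent.UEX

open Finset

namespace AVGaux

/-- The pairs with a given product inject into the divisors. -/
theorem card_fiber_le (s : Finset (ℕ × ℕ)) (k : ℕ) (hk : 1 ≤ k) :
    (s.filter fun p => p.2 * p.1 = k).card ≤ (Nat.divisors k).card := by
  refine Finset.card_le_card_of_injOn (fun p => p.1) ?_ ?_
  · intro p hp
    have h := (Finset.mem_filter.1 (Finset.mem_coe.1 hp)).2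
    exact Finset.mem_coe.2 (Nat.mem_divisors.2 ⟨⟨p.2, by rw [← h, mul_comm]⟩, by omega⟩)
  · intro p hp p' hp' he
    have h := (Finset.mem_filter.1 (Finset.mem_coe.1 hp)).2
    have h' := (Finset.mem_filter.1 (Finset.mem_coe.1 hp')).2
    have he' : p.1 = p'.1 := he
    have h0 : 0 < p.1 := by
      rcases Nat.eq_zero_or_pos p.1 with h0 | h0
      · rw [h0, mul_zero] at h
        omega
      · exact h0
    refine Prod.ext he' ?_
    rw [← he', ← h] at h'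
    exact (Nat.eq_of_mul_eq_mul_right h0 h').symm

end AVGaux

theorem m_AVG : Stmt_AVG := by
  intro g Q Δ M K hg hQ hK hd
  rw [← Finset.sum_product' (Icc ⌈Q⌉₊ ⌊2 * Q⌋₊) (Icc 1 M) (fun q m => g (m * q))]
  have hmaps : ∀ p ∈ (Icc ⌈Q⌉₊ ⌊2 * Q⌋₊) ×ˢ (Icc 1 M), p.2 * p.1 ∈ Icc 1 K := by
    intro p hp
    obtain ⟨h1, h2⟩ := Finset.mem_product.1 hp
    obtain ⟨h3, h4⟩ := Finset.mem_Icc.1 h1
    obtain ⟨h5, h6⟩ := Finset.mem_Icc.1 h2
    have h7 : 1 ≤ ⌈Q⌉₊ := Nat.one_le_ceil_iff.2 (by linarith)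
    have h8 : (p.1 : ℝ) ≤ 2 * Q :=
      (Nat.cast_le.2 h4).trans (Nat.floor_le (by linarith))
    have h9 : (p.2 : ℝ) ≤ M := Nat.cast_le.2 h6
    refine Finset.mem_Icc.2 ⟨Nat.mul_pos h5 (h7.trans h3), ?_⟩
    have h10 : ((p.2 * p.1 : ℕ) : ℝ) ≤ K := by
      push_cast
      calc (p.2 : ℝ) * p.1 ≤ M * (2 * Q) :=
            mul_le_mul h9 h8 (Nat.cast_nonneg _) (Nat.cast_nonneg _)
        _ = 2 * Q * M := by ring
        _ ≤ K := hK
    exact_mod_cast h10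
  rw [← Finset.sum_fiberwise_of_maps_to hmaps, Finset.mul_sum]
  refine Finset.sum_le_sum fun k hk => ?_
  obtain ⟨k1, k2⟩ := Finset.mem_Icc.1 hk
  have e1 : ∑ p ∈ ((Icc ⌈Q⌉₊ ⌊2 * Q⌋₊) ×ˢ (Icc 1 M)).filter (fun p => p.2 * p.1 = k),
      g (p.2 * p.1) = ((((Icc ⌈Q⌉₊ ⌊2 * Q⌋₊) ×ˢ (Icc 1 M)).filter
        (fun p => p.2 * p.1 = k)).card : ℝ) * g k := by
    rw [Finset.sum_congr rfl (fun p hp => by rw [(Finset.mem_filter.1 hp).2] :
      ∀ p ∈ ((Icc ⌈Q⌉₊ ⌊2 * Q⌋₊) ×ˢ (Icc 1 M)).filter (fun p => p.2 * p.1 = k),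
        g (p.2 * p.1) = g k), Finset.sum_const, nsmul_eq_mul]
  rw [e1]
  refine mul_le_mul_of_nonneg_right ?_ (hg k)
  exact (Nat.cast_le.2 (AVGaux.card_fiber_le _ k k1)).trans (hd k k1 k2)

end Pool.Agent.UEX
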