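import Pool.Agent.UEX.Stmts
import Pool.Agent.UHI.Div

/-! # Module DIV of block UEX: the divisor bound (from block UHI) -/

namespace Pool.Agent.UEX

theorem m_DIV : Stmt_DIV := Pool.Agent.UHI.m_DIV

end Pool.Agent.UEX
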