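import Pool.Agent.UEX.Stmts

set_option autoImplicit false

namespace Pool.Agent.UEX

open Finset

namespace ELEaux

theorem e_add (x y : ℝ) : e (x + y) = e x * e y := by
  unfold e
  rw [← Complex.exp_add]
  congr 1
  push_cast
  ring

theorem e_norm (x : ℝ) : ‖e x‖ = 1 := by
  unfold e
  have h : (2 * (Real.pi : ℂ) * (x : ℂ) * Complex.I) = ((2 * Real.pi * x : ℝ) : ℂ) * Complex.I := by
    push_cast
    ring
  rw [h, Complex.norm_exp_ofReal_mul_I]

theorem e_zero : e 0 = 1 := by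
  unfold e
  simp

theorem e_int (k : ℤ) : e (k : ℝ) = 1 := by
  unfold e
  have h : (2 * (Real.pi : ℂ) * (((k : ℝ)) : ℂ) * Complex.I) = (k : ℂ) * (2 * Real.pi * Complex.I) := by
    push_cast
    ring
  rw [h]
  exact Complex.exp_int_mul_two_pi_mul_I k

theorem e_sub_int (x : ℝ) (k : ℤ) : e (x - k) = e x := by
  have h : e (x - k) * e (k : ℝ) = e x := by
    rw [← e_add]
    congr 1
    ring
  rw [e_int, mul_one] at h
  exact h

theorem e_conj (x : ℝ) : (starRingEnd ℂ) (e x) = e (-x) := by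
  unfold e
  rw [← Complex.exp_conj]
  congr 1
  rw [map_mul, map_mul, map_mul, Complex.conj_ofReal, Complex.conj_ofReal, Complex.conj_I,
    Complex.conj_ofNat]
  push_cast
  ring

theorem D_norm_le (n : ℕ) (x : ℝ) : ‖D n x‖ ≤ n := by
  unfold D
  refine (norm_sum_le _ _).trans ?_
  simp [e_norm]

theorem D_mul (n : ℕ) (x : ℝ) : D n x * (e x - 1) = e (n * x) - 1 := by
  induction n with
  | zero => simp [D, e_zero]
  | succ n ih =>
    have h1 : D (n + 1) x = D n x + e (n * x) := by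
      unfold D
      rw [sum_range_succ]
    have h2 : e (((n + 1 : ℕ) : ℝ) * x) = e (n * x) * e x := by
      rw [← e_add]
      congr 1
      push_cast
      ring
    rw [h1, h2, add_mul, ih]
    ring

theorem D_conj (n : ℕ) (x : ℝ) : (starRingEnd ℂ) (D n x) = D n (-x) := by
  unfold D
  rw [map_sum]
  refine sum_congr rfl fun a _ => ?_
  rw [e_conj]
  congr 1
  ring

theorem D_neg (n : ℕ) (x : ℝ) : ‖D n (-x)‖ = ‖D n x‖ := by
  rw [← D_conj, Complex.norm_conj]

theorem D_sq (n : ℕ) (x : ℝ) :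
    ((‖D n x‖ ^ 2 : ℝ) : ℂ) = ∑ a ∈ range n, ∑ b ∈ range n, e ((a - b) * x) := by
  have h1 : ((‖D n x‖ ^ 2 : ℝ) : ℂ) = D n x * D n (-x) := by
    rw [← D_conj, Complex.mul_conj, Complex.normSq_eq_norm_sq]
  rw [h1]
  unfold D
  rw [sum_mul_sum]
  refine sum_congr rfl fun a _ => sum_congr rfl fun b _ => ?_
  rw [← e_add]
  congr 1
  ring

end ELEaux

theorem m_ELE : Stmt_ELE :=
  ⟨ELEaux.e_add, ELEaux.e_norm, ELEaux.e_zero, ELEaux.e_sub_int, ELEaux.e_conj, ELEaux.D_norm_le,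
    ELEaux.D_mul, ELEaux.D_neg, ELEaux.D_sq⟩

end Pool.Agent.UEX
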