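import Pool.Agent.UEX.Stmts

/-!
# Module EX of block UEX: the main statement from the Fejer kernel lemma `Stmt_STF`
-/

set_option autoImplicit false

namespace Pool.Agent.UEX

open Finset

/-- STF: the counting lemma with Fejer kernels (proved by helper21 in `Pool/Agent/UH3/Stf.lean`), in the
form for a set `QQ` all of whose elements are bad. -/
def Stmt_STF : Prop :=
  ∀ (θ ρ x0 : ℝ) (a0 b0 : ℤ) (A B : ℕ) (c σ : ℝ), 0 < A → 0 < B → 0 < c → 0 < σ →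
    (∀ k l m : ℤ, (k ≠ 0 ∨ l ≠ 0) → |k| < (A : ℤ) → |l| < (B : ℤ) → σ ≤ |(k : ℝ) * θ + l * ρ - m|) →
    ∀ (QQ : Finset ℕ) (Q H M Dd : ℕ), (∀ q ∈ QQ, 0 < q ∧ q ≤ Q) →
      (∀ n : ℕ, 0 < n → n < 2 * H * Q → (QQ.filter (fun q => q ∣ n)).card ≤ Dd) →
      1 ≤ c * H → 4 * H * Q ≤ M → 1 ≤ σ * M →
      (∀ q ∈ QQ, ∀ a b p : ℤ, |a - a0| < (A : ℤ) → |b - b0| < (B : ℤ) →
        c ≤ |(q : ℝ) * (a * θ + b * ρ) - x0 - p|) →
      (QQ.card : ℝ) * ((A : ℝ) * B) ≤ 112 * Dd * M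

theorem m_EX (hSTF : Stmt_STF) (hDIV : Stmt_DIV) : Stmt_EX := by
  intro C η hC hη
  obtain ⟨A0, hA01, hA0⟩ := hDIV (2 * C + 1) (η / 8) (by linarith) (by linarith)
  refine ⟨max A0 (max 9 ((4032 : ℝ) ^ (1 / (5 * η / 8)))), le_max_of_le_left hA01, ?_⟩
  intro G hG θ ρ x0 c K1 Q A1 A2 B1 B2 hA12 hB12 hnA hnB hGc hc8 hQ1 hQG hK1 hK1Q hsep hvol
  have hG1 : A0 ≤ G := (le_max_left _ _).trans hG
  have hG9 : 9 ≤ G := ((le_max_left _ _).trans (le_max_right _ _)).trans hG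
  have hG2 : (4032 : ℝ) ^ (1 / (5 * η / 8)) ≤ G :=
    ((le_max_right _ _).trans (le_max_right _ _)).trans hG
  have hG0 : 0 < G := by linarith
  have hbig : 4032 ≤ G ^ (5 * η / 8) := by
    calc (4032 : ℝ) = ((4032 : ℝ) ^ (1 / (5 * η / 8))) ^ (5 * η / 8) := by
          rw [← Real.rpow_mul (by norm_num), one_div_mul_cancel (by positivity), Real.rpow_one]
      _ ≤ _ := Real.rpow_le_rpow (by positivity) hG2 (by positivity)
  have hc0 : 0 < c := lt_of_lt_of_le (Real.rpow_pos_of_pos hG0 _) hGc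
  set S := badq θ ρ x0 c Q A1 A2 B1 B2 with hS
  -- sizes
  obtain ⟨nA, hnA'⟩ : ∃ n : ℕ, (n : ℤ) = A2 - A1 + 1 := ⟨(A2 - A1 + 1).toNat, by omega⟩
  obtain ⟨nB, hnB'⟩ : ∃ n : ℕ, (n : ℤ) = B2 - B1 + 1 := ⟨(B2 - B1 + 1).toNat, by omega⟩
  have hnAr : ((A2 - A1 + 1 : ℤ) : ℝ) = nA := by
    rw [← hnA']
    push_cast
    rfl
  have hnBr : ((B2 - B1 + 1 : ℤ) : ℝ) = nB := by
    rw [← hnB']
    push_cast
    rfl
  rw [hnAr, hnBr] at hvol
  obtain ⟨A, hA⟩ : ∃ A : ℕ, A = (nA + 1) / 2 := ⟨_, rfl⟩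
  obtain ⟨B, hB⟩ : ∃ B : ℕ, B = (nB + 1) / 2 := ⟨_, rfl⟩
  have hAB : (nA : ℝ) * nB ≤ 4 * ((A : ℝ) * B) := by
    have h1 : (nA : ℝ) ≤ 2 * A := by exact_mod_cast (by omega : nA ≤ 2 * A)
    have h2 : (nB : ℝ) ≤ 2 * B := by exact_mod_cast (by omega : nB ≤ 2 * B)
    calc (nA : ℝ) * nB ≤ (2 * A) * (2 * B) := by gcongr
      _ = _ := by ring
  -- the integer parameters
  obtain ⟨Q2, hQ2⟩ : ∃ n : ℕ, n = ⌊2 * Q⌋₊ := ⟨_, rfl⟩
  obtain ⟨H, hH⟩ : ∃ n : ℕ, n = ⌈1 / c⌉₊ := ⟨_, rfl⟩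
  obtain ⟨M, hM⟩ : ∃ n : ℕ, n = max (4 * H * Q2) ⌈K1⌉₊ := ⟨_, rfl⟩
  have hQ2r : (Q2 : ℝ) ≤ 2 * Q := hQ2 ▸ Nat.floor_le (by linarith)
  have hH1 : 1 / c ≤ (H : ℝ) := hH ▸ Nat.le_ceil _
  have hH2 : (H : ℝ) ≤ 1 / c + 1 := hH ▸ (Nat.ceil_lt_add_one (by positivity)).le
  have hQc : 8 * Q ≤ Q / c := by
    rw [le_div_iff₀ hc0]
    nlinarith
  have hHQ : (H : ℝ) * Q2 ≤ 2 * (Q / c) + Q / c / 4 := by
    calc (H : ℝ) * Q2 ≤ (1 / c + 1) * (2 * Q) := by gcongr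
      _ = 2 * (Q / c) + 2 * Q := by ring
      _ ≤ _ := by linarith
  have hMr : (M : ℝ) ≤ 9 * (Q / c) := by
    rw [hM]
    push_cast
    refine max_le ?_ ?_
    · calc (4 : ℝ) * H * Q2 = 4 * ((H : ℝ) * Q2) := by ring
        _ ≤ 4 * (2 * (Q / c) + Q / c / 4) := by gcongr
        _ = 9 * (Q / c) := by ring
    · have h1 : (⌈K1⌉₊ : ℝ) ≤ K1 + 1 := (Nat.ceil_lt_add_one hK1.le).le
      linarith
  have hQcG : 5 * (Q / c) ≤ G ^ (2 * C + 1) := by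
    have h1 : Q / c ≤ G ^ C * G ^ C := by
      rw [div_eq_mul_inv]
      refine mul_le_mul hQG ?_ (by positivity) (by positivity)
      rw [inv_le_comm₀ hc0 (by positivity), ← Real.rpow_neg hG0.le]
      exact hGc
    calc 5 * (Q / c) ≤ G * (G ^ C * G ^ C) := by
          refine mul_le_mul (by linarith) h1 (by positivity) hG0.le
      _ = G ^ (2 * C + 1) := by
          rw [← Real.rpow_add hG0, show 2 * C + 1 = 1 + (C + C) by ring, Real.rpow_add hG0 1,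
            Real.rpow_one]
  -- elements of the bad set
  have hSmem : ∀ q ∈ S, (0 < q ∧ q ≤ Q2) ∧ ¬ ∃ a b k : ℤ, A1 ≤ a ∧ a ≤ A2 ∧ B1 ≤ b ∧ b ≤ B2 ∧
      |(q : ℝ) * (a * θ + b * ρ) - k - x0| ≤ c := by
    intro q hq
    rw [hS] at hq
    unfold badq at hq
    simp only [Finset.mem_filter, Finset.mem_Icc] at hq
    obtain ⟨⟨h1, h2⟩, h3, h4⟩ := hq
    refine ⟨⟨h3.pos, hQ2 ▸ h2⟩, h4⟩
  have hmain := hSTF θ ρ x0 (A1 + A - 1) (B1 + B - 1) A B c (1 / K1) (by omega) (by omega) hc0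
    (by positivity) (by
      intro k l m hkl hk hl
      refine hsep k l m ?_ ?_ hkl
      · omega
      · omega) S Q2 H M ⌊G ^ (η / 8)⌋₊ (fun q hq => (hSmem q hq).1) (by
      intro n hn0 hn
      refine Nat.le_floor ?_
      have h1 : (S.filter (fun q => q ∣ n)).card ≤ (Nat.divisors n).card := by
        refine Finset.card_le_card ?_
        intro q hq
        rw [Finset.mem_filter] at hq
        exact Nat.mem_divisors.2 ⟨hq.2, by omega⟩
      have h2 : (n : ℝ) ≤ G ^ (2 * C + 1) := by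
        have h3 : (n : ℝ) ≤ 2 * ((H : ℝ) * Q2) := by
          have : (n : ℝ) ≤ ((2 * H * Q2 : ℕ) : ℝ) := by exact_mod_cast hn.le
          push_cast at this
          linarith
        have h4 : 0 ≤ Q / c := by positivity
        linarith
      have h3 := hA0 G hG1 n hn0 h2
      calc ((S.filter (fun q => q ∣ n)).card : ℝ) ≤ ((Nat.divisors n).card : ℝ) := by
            exact_mod_cast h1
        _ ≤ _ := h3) (by
      calc (1 : ℝ) = c * (1 / c) := by field_simp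
        _ ≤ c * H := by gcongr) (by
      rw [hM]
      exact le_max_left _ _) (by
      have h1 : K1 ≤ (M : ℝ) := by
        rw [hM]
        push_cast
        exact (Nat.le_ceil _).trans (le_max_right _ _)
      calc (1 : ℝ) = 1 / K1 * K1 := by field_simp
        _ ≤ 1 / K1 * M := by gcongr) (by
      intro q hq a b p ha hb
      by_contra hcon
      refine (hSmem q hq).2 ⟨a, b, p, ?_, ?_, ?_, ?_, ?_⟩
      · rw [abs_lt] at ha
        omega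
      · rw [abs_lt] at ha
        omega
      · rw [abs_lt] at hb
        omega
      · rw [abs_lt] at hb
        omega
      · have h1 : (q : ℝ) * (a * θ + b * ρ) - p - x0 = (q : ℝ) * (a * θ + b * ρ) - x0 - p := by ring
        rw [h1]
        exact (not_le.1 hcon).le)
  -- final computation
  have hfl : ((⌊G ^ (η / 8)⌋₊ : ℕ) : ℝ) ≤ G ^ (η / 8) := Nat.floor_le (by positivity)
  have h1 : (S.card : ℝ) * G ^ η ≤ Q * (G ^ (5 * η / 8) * G ^ (η / 8)) := by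
    have hS0 : (0 : ℝ) ≤ S.card := Nat.cast_nonneg _
    calc (S.card : ℝ) * G ^ η ≤ S.card * ((nA : ℝ) * nB * c) := by gcongr
      _ = (S.card * ((nA : ℝ) * nB)) * c := by ring
      _ ≤ (S.card * (4 * ((A : ℝ) * B))) * c := by gcongr
      _ = 4 * (S.card * ((A : ℝ) * B)) * c := by ring
      _ ≤ 4 * (112 * (⌊G ^ (η / 8)⌋₊ : ℕ) * M) * c := by gcongr
      _ ≤ 4 * (112 * G ^ (η / 8) * (9 * (Q / c))) * c := by gcongr
      _ = Q * (4032 * G ^ (η / 8)) := by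
          field_simp
          ring
      _ ≤ _ := by gcongr
  have h2 : G ^ (5 * η / 8) * G ^ (η / 8) = G ^ (-(η / 4)) * G ^ η := by
    rw [← Real.rpow_add hG0, ← Real.rpow_add hG0]
    congr 1
    ring
  rw [h2] at h1
  have h3 : 0 < G ^ η := Real.rpow_pos_of_pos hG0 _
  have h4 : (S.card : ℝ) * G ^ η ≤ (Q * G ^ (-(η / 4))) * G ^ η := by
    calc (S.card : ℝ) * G ^ η ≤ Q * (G ^ (-(η / 4)) * G ^ η) := h1
      _ = _ := by ring
  exact le_of_mul_le_mul_right h4 h3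

end Pool.Agent.UEX
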