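import Pool.Agent.UEX.Stmts

set_option autoImplicit false

namespace Pool.Agent.UEX

open Finset

namespace GEOaux

theorem norm_e_sub_one (y : ℝ) : ‖e y - 1‖ = 2 * |Real.sin (Real.pi * y)| := by
  have h : e y = Complex.exp (Complex.I * ((2 * Real.pi * y : ℝ) : ℂ)) := by
    unfold e
    congr 1
    push_cast
    ring
  rw [h, Complex.norm_exp_I_mul_ofReal_sub_one, norm_mul, Real.norm_eq_abs, Real.norm_eq_abs]
  rw [abs_of_pos (by norm_num : (0 : ℝ) < 2)]
  congr 3
  ring

theorem two_abs_le_sin {y : ℝ} (hy : |y| ≤ 1 / 2) : 2 * |y| ≤ |Real.sin (Real.pi * y)| := by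
  have key : ∀ t : ℝ, 0 ≤ t → t ≤ 1 / 2 → 2 * t ≤ Real.sin (Real.pi * t) := by
    intro t h0 h1
    have h2 := Real.mul_le_sin (x := Real.pi * t) (mul_nonneg Real.pi_pos.le h0)
      (by nlinarith [Real.pi_pos])
    have h3 : 2 / Real.pi * (Real.pi * t) = 2 * t := by
      field_simp [Real.pi_ne_zero]
    rw [h3] at h2
    exact h2
  rcases le_total 0 y with h | h
  · have := key y h (by rwa [abs_of_nonneg h] at hy)
    rw [abs_of_nonneg h]
    exact le_trans this (le_abs_self _)
  · have := key (-y) (by linarith) (by rwa [abs_of_nonpos h] at hy)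
    rw [abs_of_nonpos h]
    have h4 : Real.sin (Real.pi * -y) = -Real.sin (Real.pi * y) := by
      rw [mul_neg, Real.sin_neg]
    rw [h4] at this
    exact le_trans this (neg_le_abs _)

theorem abs_sin_le' (t : ℝ) : |Real.sin t| ≤ |t| := by
  rcases le_total 0 t with h | h
  · rw [abs_of_nonneg h]
    rw [abs_le]
    constructor
    · have := Real.sin_le (x := -t)
      by_cases h5 : t ≤ Real.pi
      · have := Real.sin_nonneg_of_nonneg_of_le_pi h h5
        linarith
      · have := Real.neg_one_le_sin t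
        have := Real.pi_gt_three
        linarith
    · exact Real.sin_le h
  · rw [abs_of_nonpos h]
    have h1 : Real.sin t = -Real.sin (-t) := by rw [Real.sin_neg, neg_neg]
    rw [h1, abs_neg, abs_le]
    constructor
    · by_cases h5 : -t ≤ Real.pi
      · have := Real.sin_nonneg_of_nonneg_of_le_pi (by linarith : 0 ≤ -t) h5
        linarith
      · have := Real.neg_one_le_sin (-t)
        have := Real.pi_gt_three
        linarith
    · exact Real.sin_le (by linarith)

theorem D_shift (hE : ∀ (x : ℝ) (k : ℤ), e (x - k) = e x) (n : ℕ) (x : ℝ) (k : ℤ) :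
    D n (x - k) = D n x := by
  unfold D
  refine Finset.sum_congr rfl fun a _ => ?_
  have h1 : (a : ℝ) * (x - k) = (a : ℝ) * x - (((a : ℤ) * k : ℤ) : ℝ) := by
    push_cast
    ring
  rw [h1, hE]

end GEOaux

open GEOaux in
theorem m_GEO (hELE : Stmt_ELE) : Stmt_GEO := by
  obtain ⟨_, hnorm, h0, hint, _, _, hgeo, _, _⟩ := hELE
  have hmain : ∀ (n : ℕ) (y : ℝ),
      ‖D n y‖ * (2 * |Real.sin (Real.pi * y)|) = 2 * |Real.sin (Real.pi * (n * y))| := by
    intro n y
    rw [← norm_e_sub_one, ← norm_e_sub_one, ← hgeo n y, norm_mul]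
  constructor
  · intro n x k hxk
    rw [← D_shift hint n x k]
    set y := x - (k : ℝ) with hy
    have h1 := hmain n y
    have h2 : |Real.sin (Real.pi * (n * y))| ≤ 1 := Real.abs_sin_le_one _
    have h3 := two_abs_le_sin hxk
    have h4 : ‖D n y‖ * (2 * |y|) ≤ ‖D n y‖ * |Real.sin (Real.pi * y)| :=
      mul_le_mul_of_nonneg_left h3 (norm_nonneg _)
    nlinarith
  · intro m x k hmk
    rw [← D_shift hint m x k]
    set y := x - (k : ℝ) with hy
    have hpi := Real.pi_pos
    by_cases hy0 : y = 0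
    · rw [hy0]
      have h1 : D m 0 = m := by
        unfold D
        simp [h0]
      rw [h1]
      simp only [Complex.norm_natCast]
      have h2 : 2 / Real.pi ≤ 1 := by
        rw [div_le_one hpi]
        linarith [Real.pi_gt_three]
      have h3 : (0 : ℝ) ≤ m := Nat.cast_nonneg m
      nlinarith
    · have hyp : 0 < |y| := abs_pos.mpr hy0
      have h1 := hmain m y
      have hm0 : (0 : ℝ) ≤ m := Nat.cast_nonneg m
      have h2 : |(m : ℝ) * y| ≤ 1 / 2 := by
        rw [abs_mul, abs_of_nonneg hm0]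
        linarith
      have h3 := two_abs_le_sin h2
      have h4 : |Real.sin (Real.pi * y)| ≤ Real.pi * |y| := by
        have := abs_sin_le' (Real.pi * y)
        rwa [abs_mul, abs_of_pos hpi] at this
      have h5 : ‖D m y‖ * |Real.sin (Real.pi * y)| ≤ ‖D m y‖ * (Real.pi * |y|) :=
        mul_le_mul_of_nonneg_left h4 (norm_nonneg _)
      rw [abs_mul, abs_of_nonneg hm0] at h3
      have h6 : 2 * ((m : ℝ) * |y|) ≤ ‖D m y‖ * (Real.pi * |y|) := by linarith
      have h7 : 2 * (m : ℝ) ≤ ‖D m y‖ * Real.pi := by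
        have h8 : (2 * (m : ℝ)) * |y| ≤ (‖D m y‖ * Real.pi) * |y| := by linarith
        exact le_of_mul_le_mul_right h8 hyp
      rw [div_mul_eq_mul_div, div_le_iff₀ hpi]
      exact h7

end Pool.Agent.UEX
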