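import Pool.Agent.UEX.Ex
import Pool.Agent.UEX.Div
import Pool.Agent.UH3.StfD

/-!
# Block UEX: assembly
-/

set_option autoImplicit false

namespace Pool.Agent.UEX

theorem t_STF : Stmt_STF := by
  intro θ ρ x0 a0 b0 A B c σ hA hB hc hσ hres QQ Q H M Dd hQ hD hH hM hM' hbad
  exact Pool.Agent.UH3.Stf.stf θ ρ x0 a0 b0 hA hB hc hσ hres QQ hQ hD hH hM hM' hbad

/-- the main statement of the block -/
theorem main_EX : Stmt_EX := m_EX t_STF m_DIV

end Pool.Agent.UEX
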