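import Pool.Agent.UEX.Stmts

/-!
# UEX, module NUM: an inequality for large `G`
-/

set_option autoImplicit false

open Filter

namespace Pool.Agent.UEX

theorem m_NUM : Stmt_NUM := by
  intro C η hC hη
  have hδ : 0 < η / 8 := by positivity
  have h1 : ∀ᶠ G : ℝ in atTop, ‖Real.log G‖ ≤ 1 / (4 * C) * ‖G ^ (η / 8)‖ :=
    (isLittleO_log_rpow_atTop hδ).def (by positivity)
  have h2 : ∀ᶠ G : ℝ in atTop, (5000 : ℝ) ≤ G ^ (η / 8) :=
    (tendsto_rpow_atTop hδ).eventually_ge_atTop 5000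
  have h3 : ∀ᶠ G : ℝ in atTop, (9 : ℝ) ≤ G := eventually_ge_atTop 9
  obtain ⟨G0, hG0⟩ := eventually_atTop.1 (h1.and (h2.and h3))
  refine ⟨max G0 9, le_max_right _ _, ?_⟩
  intro G hG
  obtain ⟨ha, hb, hc⟩ := hG0 G ((le_max_left _ _).trans hG)
  have hpos : 0 < G := by linarith
  have hx : 0 < G ^ (η / 8) := Real.rpow_pos_of_pos hpos _
  have hlog : 0 ≤ Real.log G := Real.log_nonneg (by linarith)
  rw [Real.norm_of_nonneg hlog, Real.norm_of_nonneg hx.le] at ha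
  have hCL : 2 * C * Real.log G ≤ G ^ (η / 8) / 2 := by
    have := mul_le_mul_of_nonneg_left ha (by positivity : (0 : ℝ) ≤ 2 * C)
    have h4 : 2 * C * (1 / (4 * C) * G ^ (η / 8)) = G ^ (η / 8) / 2 := by
      field_simp
      ring
    rw [h4] at this
    exact this
  have hCL0 : 0 ≤ 2 * C * Real.log G := by positivity
  have e1 : 2 * C * Real.log G + 1 ≤ G ^ (η / 8) := by linarith
  have e2 : 11 + 2 * C * Real.log G ≤ G ^ (η / 8) := by linarith
  have e3 : (2500 : ℝ) ≤ G ^ (η / 8) := by linarith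
  have e4 : (2 * C * Real.log G + 1) ^ 2 ≤ (G ^ (η / 8)) ^ 2 :=
    pow_le_pow_left₀ (by linarith) e1 2
  have e5 : 2500 * (2 * C * Real.log G + 1) ^ 2 ≤ G ^ (η / 8) * (G ^ (η / 8)) ^ 2 :=
    mul_le_mul e3 e4 (by positivity) hx.le
  have e6 : 2500 * (2 * C * Real.log G + 1) ^ 2 * (11 + 2 * C * Real.log G) ≤
      G ^ (η / 8) * (G ^ (η / 8)) ^ 2 * G ^ (η / 8) :=
    mul_le_mul e5 e2 (by linarith) (by positivity)
  have e7 : G ^ (η / 8) * (G ^ (η / 8)) ^ 2 * G ^ (η / 8) = G ^ (η / 8 * 4) := by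
    rw [Real.rpow_mul hpos.le, show (4 : ℝ) = ((4 : ℕ) : ℝ) by norm_num, Real.rpow_natCast]
    ring
  rw [e7] at e6
  refine e6.trans ?_
  exact Real.rpow_le_rpow_of_exponent_le (by linarith) (by linarith)

end Pool.Agent.UEX
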