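import Pool.Agent.UEX.Stmts
import Pool.Agent.Lib_helper70.PNT.PNT

/-!
# `Stmt_PRM`: many primes in `[Q, 2 Q]`
-/

set_option autoImplicit false

namespace Pool.Agent.UEX

open Finset Filter Topology

namespace PRMaux

lemma theta_diff (Q : ℝ) (hQ : 1 ≤ Q) :
    Chebyshev.theta (2 * Q) - Chebyshev.theta Q ≤
      (((Icc ⌈Q⌉₊ ⌊2 * Q⌋₊).filter Nat.Prime).card : ℝ) * Real.log (2 * Q) := by
  have hQ0 : 0 ≤ Q := by linarith
  have hfl : ⌊Q⌋₊ ≤ ⌊2 * Q⌋₊ := Nat.floor_le_floor (by linarith)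
  rw [Chebyshev.theta_eq_sum_Icc, Chebyshev.theta_eq_sum_Icc]
  have hsub : (Icc 0 ⌊Q⌋₊).filter Nat.Prime ⊆ (Icc 0 ⌊2 * Q⌋₊).filter Nat.Prime := by
    intro p hp
    simp only [Finset.mem_filter, mem_Icc] at hp ⊢
    exact ⟨⟨hp.1.1, hp.1.2.trans hfl⟩, hp.2⟩
  rw [← sum_sdiff hsub, add_sub_cancel_right]
  have hle : ((Icc 0 ⌊2 * Q⌋₊).filter Nat.Prime) \ ((Icc 0 ⌊Q⌋₊).filter Nat.Prime) ⊆
      (Icc ⌈Q⌉₊ ⌊2 * Q⌋₊).filter Nat.Prime := by
    intro p hp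
    simp only [Finset.mem_sdiff, Finset.mem_filter, mem_Icc, not_and] at hp ⊢
    refine ⟨⟨?_, hp.1.1.2⟩, hp.1.2⟩
    have h1 : ¬ (p ≤ ⌊Q⌋₊) := by
      intro h
      exact hp.2 ⟨hp.1.1.1, h⟩ hp.1.2
    have h2 : ⌊Q⌋₊ < p := by omega
    have h3 : Q < p := (Nat.floor_lt hQ0).1 h2
    exact Nat.ceil_le.2 h3.le
  calc _ ≤ ∑ p ∈ ((Icc 0 ⌊2 * Q⌋₊).filter Nat.Prime) \ ((Icc 0 ⌊Q⌋₊).filter Nat.Prime),
          Real.log (2 * Q) := by
        refine sum_le_sum fun p hp => ?_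
        simp only [Finset.mem_sdiff, Finset.mem_filter, mem_Icc] at hp
        have hp1 : (p : ℝ) ≤ 2 * Q :=
          le_trans (by exact_mod_cast hp.1.1.2) (Nat.floor_le (by linarith))
        exact Real.log_le_log (by exact_mod_cast hp.1.2.pos) hp1
    _ = ((((Icc 0 ⌊2 * Q⌋₊).filter Nat.Prime) \ ((Icc 0 ⌊Q⌋₊).filter Nat.Prime)).card : ℝ) *
          Real.log (2 * Q) := by rw [sum_const, nsmul_eq_mul]
    _ ≤ _ := by
        refine mul_le_mul_of_nonneg_right ?_ (Real.log_nonneg (by linarith))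
        exact_mod_cast card_le_card hle

lemma theta_half : ∀ᶠ Q : ℝ in atTop, Q / 2 ≤ Chebyshev.theta (2 * Q) - Chebyshev.theta Q := by
  have h := H70PNT.theta_tendsto
  have h1 : ∀ᶠ x : ℝ in atTop, Chebyshev.theta x / x < 9 / 8 := h.eventually_lt_const (by norm_num)
  have h2 : ∀ᶠ x : ℝ in atTop, 7 / 8 < Chebyshev.theta x / x :=
    h.eventually_const_lt (by norm_num)
  have h3 : ∀ᶠ x : ℝ in atTop, 7 / 8 < Chebyshev.theta (2 * x) / (2 * x) :=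
    (tendsto_id.const_mul_atTop (by norm_num : (0 : ℝ) < 2)).eventually h2
  filter_upwards [h1, h3, eventually_gt_atTop 0] with x hx1 hx3 hx0
  rw [div_lt_iff₀ hx0] at hx1
  rw [lt_div_iff₀ (by linarith)] at hx3
  linarith

lemma log_small (η : ℝ) (hη : 0 < η) : ∀ᶠ Q : ℝ in atTop, 2 * Real.log (2 * Q) ≤ Q ^ η := by
  have h := isLittleO_log_rpow_atTop hη
  have h1 : ∀ᶠ x : ℝ in atTop, ‖Real.log x‖ ≤ (1 / 4) * ‖x ^ η‖ := h.def (by norm_num)
  have h2 : ∀ᶠ x : ℝ in atTop, 4 * Real.log 2 ≤ x ^ η :=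
    (tendsto_rpow_atTop hη).eventually_ge_atTop _
  filter_upwards [h1, h2, eventually_gt_atTop 1] with x hx1 hx2 hx0
  have h0 : 0 < x := by linarith
  rw [Real.norm_of_nonneg (Real.log_nonneg hx0.le),
    Real.norm_of_nonneg (Real.rpow_nonneg h0.le _)] at hx1
  rw [Real.log_mul (by norm_num) h0.ne']
  linarith

end PRMaux

open PRMaux in
theorem m_PRM : Stmt_PRM := by
  intro η hη
  obtain ⟨Q0, hQ0⟩ := eventually_atTop.1 (theta_half.and (log_small η hη))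
  refine ⟨max Q0 2, le_trans (by norm_num) (le_max_right _ _), fun Q hQ => ?_⟩
  obtain ⟨h1, h2⟩ := hQ0 Q ((le_max_left _ _).trans hQ)
  have hQ2 : 2 ≤ Q := (le_max_right _ _).trans hQ
  have hQpos : 0 < Q := by linarith
  have h3 := theta_diff Q (by linarith)
  have hlog : 0 < Real.log (2 * Q) := Real.log_pos (by linarith)
  have h4 : Q / 2 ≤ (((Icc ⌈Q⌉₊ ⌊2 * Q⌋₊).filter Nat.Prime).card : ℝ) * Real.log (2 * Q) :=
    h1.trans h3
  have hrp : Q ^ (1 - η) * Q ^ η = Q := by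
    rw [← Real.rpow_add hQpos]
    simp
  have hpos : 0 < Q ^ (1 - η) := Real.rpow_pos_of_pos hQpos _
  have h5 : Q ^ (1 - η) * Real.log (2 * Q) ≤ Q / 2 := by
    have := mul_le_mul_of_nonneg_left h2 hpos.le
    rw [hrp] at this
    linarith
  exact le_of_mul_le_mul_right (h5.trans h4) hlog

end Pool.Agent.UEX
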