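import Mathlib

/-!
# Block UEX of the lower bound 1/3 (MP_c538e3_nt): existence of `(a, b)` for most primes `q`

`Stmt_EX`: if the numbers `a θ + b ρ` (small `a`, `b`) are well separated modulo 1, then for most primes
`q ∈ [Q, 2 Q]` there are `a`, `b` in given intervals with `q (a θ + b ρ) - x0` within `c` of an integer.
`Stmt_PRM`: there are at least `Q ^ (1 - η)` primes in `[Q, 2 Q]`.

Notation: `e x = exp (2 π i x)`, `D n x = ∑_{a < n} e (a x)`, `W n x = 5 ∑_{i ≤ log2 n} |D (2^i) x|^2 / 2^i`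
(a majorant of all geometric sums with `n` terms that is a sum of Fejer kernels). All modules are
independent; the statements named in a module may be used as hypotheses.
-/

set_option autoImplicit false

namespace Pool.Agent.UEX

open Finset

/-- `e x = exp (2 π i x)` -/
noncomputable def e (x : ℝ) : ℂ := Complex.exp (2 * Real.pi * x * Complex.I)

/-- the geometric sum `∑_{a < n} e (a x)` -/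
noncomputable def D (n : ℕ) (x : ℝ) : ℂ := ∑ a ∈ range n, e (a * x)

/-- the majorant of the geometric sums with `n` terms -/
noncomputable def W (n : ℕ) (x : ℝ) : ℝ :=
  5 * ∑ i ∈ range (Nat.log 2 n + 1), ‖D (2 ^ i) x‖ ^ 2 / 2 ^ i

open Classical in
/-- the primes `q ∈ [Q, 2 Q]` for which there are no `a ∈ [A1, A2]`, `b ∈ [B1, B2]` with
`q (a θ + b ρ) - x0` within `c` of an integer -/
noncomputable def badq (θ ρ x0 c Q : ℝ) (A1 A2 B1 B2 : ℤ) : Finset ℕ :=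
  (Icc ⌈Q⌉₊ ⌊2 * Q⌋₊).filter fun q => q.Prime ∧ ¬ ∃ a b k : ℤ, A1 ≤ a ∧ a ≤ A2 ∧ B1 ≤ b ∧ b ≤ B2 ∧
    |(q : ℝ) * (a * θ + b * ρ) - k - x0| ≤ c

/-- ELE: elementary facts. PROOF. `Complex.exp_add`, `Complex.exp_int_mul_two_pi_mul_I`,
`Complex.norm_exp_ofReal_mul_I`; `‖D n x‖ ≤ n` by the triangle inequality; the geometric sum (`geom_sum_mul`). -/
def Stmt_ELE : Prop :=
  (∀ x y : ℝ, e (x + y) = e x * e y) ∧ (∀ x : ℝ, ‖e x‖ = 1) ∧ e 0 = 1 ∧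
  (∀ (x : ℝ) (k : ℤ), e (x - k) = e x) ∧ (∀ x : ℝ, (starRingEnd ℂ) (e x) = e (-x)) ∧
  (∀ (n : ℕ) (x : ℝ), ‖D n x‖ ≤ n) ∧ (∀ (n : ℕ) (x : ℝ), D n x * (e x - 1) = e (n * x) - 1) ∧
  (∀ (n : ℕ) (x : ℝ), ‖D n (-x)‖ = ‖D n x‖) ∧
  (∀ (n : ℕ) (x : ℝ), ((‖D n x‖ ^ 2 : ℝ) : ℂ) = ∑ a ∈ range n, ∑ b ∈ range n, e ((a - b) * x))

/-- GEO: bounds of the geometric sums. PROOF. `y = x - k`; `D n x = D n y` (`e (a x) = e (a y)`, `a k` is an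
integer). `‖e y - 1‖ = 2 |sin (π y)|`. (1) `D n y (e y - 1) = e (n y) - 1`, so `‖D n y‖ 2 |sin (π y)| ≤ 2`, and
`|sin (π y)| ≥ 2 |y|` for `|y| ≤ 1/2` (`Real.mul_le_sin`). (2) `y = 0`: `D m 0 = m`. Otherwise
`‖D m y‖ |sin (π y)| = |sin (π m y)| ≥ 2 m |y|` since `m |y| ≤ 1/2`, and `|sin (π y)| ≤ π |y|`. -/
def Stmt_GEO : Prop :=
  (∀ (n : ℕ) (x : ℝ) (k : ℤ), |x - k| ≤ 1 / 2 → ‖D n x‖ * (2 * |x - k|) ≤ 1) ∧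
  (∀ (m : ℕ) (x : ℝ) (k : ℤ), 2 * (m : ℝ) * |x - k| ≤ 1 → 2 / Real.pi * m ≤ ‖D m x‖)

/-- MAJ (uses ELE, GEO). PROOF. `n = A2 - A1 + 1`; the sum is `e (A1 x) D n x`. Let `k = round x`, `y = |x - k| ≤ 1/2`
(`abs_sub_round`), `L = Nat.log 2 n`, `2^L ≤ n < 2^(L+1)`. If `2 * 2^L * y ≤ 1`: by GEO (2)
`5 ‖D (2^L) x‖^2 / 2^L ≥ 5 (4/π^2) 2^L ≥ 2 * 2^L ≥ n ≥ ‖D n x‖` (`π < 3.15`). Otherwise let `i` be maximal with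
`2 * 2^i * y ≤ 1` (`i = 0` is possible, `i < L`): `2 * 2^(i+1) * y > 1`, so by GEO (1)
`‖D n x‖ ≤ 1/(2 y) < 2 * 2^i ≤ 5 ‖D (2^i) x‖^2 / 2^i`. The other terms of `W` are nonnegative. -/
def Stmt_MAJ : Prop :=
  ∀ (A1 A2 : ℤ) (x : ℝ), A1 ≤ A2 →
    ‖∑ a ∈ Icc A1 A2, e (a * x)‖ ≤ W (A2 - A1 + 1).toNat x

/-- SPS (uses ELE, GEO): sums over separated points. PROOF. For `i ∈ s` let `k_i = round (y i)`,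
`t_i = y i - k_i`, `|t_i| ≤ 1/2`, `l_i = ⌊K1 |t_i|⌋₊ ≤ K1/2`. The map `i ↦ (l_i, sign of t_i)` (two signs: `0 ≤ t_i` or
`t_i < 0`) is injective on `s`: if `i ≠ j` have the same image then `|t_i - t_j| < 1/K1`, but
`t_i - t_j = y i - y j - (k_i - k_j)`. `‖∑_{k=1}^K e (k y)‖ = ‖D K y‖` is at most `K`, and at most `K1/(2 l_i)` if `l_i ≥ 1`
(GEO (1), `|t_i| ≥ l_i/K1`). So the sum is at most `2 (K + ∑_{1 ≤ l ≤ K1/2} K1/(2 l)) ≤ 2 K + K1 (1 + log K1)`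
(`harmonic_le_one_add_log`; the sum over `l` is empty for `K1 < 2`). -/
def Stmt_SPS : Prop :=
  ∀ (ι : Type) (s : Finset ι) (y : ι → ℝ) (K1 : ℝ) (K : ℕ), 1 ≤ K1 →
    (∀ i ∈ s, ∀ j ∈ s, i ≠ j → ∀ k : ℤ, 1 / K1 ≤ |y i - y j - k|) →
    ∑ i ∈ s, ‖∑ k ∈ Icc 1 K, e (k * y i)‖ ≤ 2 * K + K1 * (1 + Real.log K1)

/-- TSM (uses ELE, SPS). PROOF. Expand the two `W`: it is enough that for `m = 2^i ≤ nA`, `m' = 2^j ≤ nB`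
`∑_k ‖D m (k θ)‖^2 ‖D m' (k ρ)‖^2 / (m m') ≤ 2 K + K1 (1 + log K1)`. By the last part of ELE (for both factors) the
left side is `1/(m m') ∑_{a' < m, b' < m'} ∑_{a < m, b < m'} ∑_k e (k ((a - a') θ + (b - b') ρ))`; for fixed `(a', b')`
the inner double sum is bounded by SPS for `s = range m ×ˢ range m'` and `y (a, b) = (a - a') θ + (b - b') ρ`
(differences: `(a₁ - a₂) θ + (b₁ - b₂) ρ`, `|a₁ - a₂| < m ≤ nA`, `|b₁ - b₂| < m' ≤ nB`). There are `m m'` pairs `(a', b')`. -/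
def Stmt_TSM : Prop :=
  ∀ (nA nB K : ℕ) (θ ρ K1 : ℝ), 1 ≤ nA → 1 ≤ nB → 1 ≤ K1 →
    (∀ a b k : ℤ, |a| < nA → |b| < nB → (a ≠ 0 ∨ b ≠ 0) → 1 / K1 ≤ |(a : ℝ) * θ + b * ρ - k|) →
    ∑ k ∈ Icc 1 K, W nA (k * θ) * W nB (k * ρ) ≤
      25 * ((Nat.log 2 nA + 1 : ℕ) : ℝ) * ((Nat.log 2 nB + 1 : ℕ) : ℝ) * (2 * K + K1 * (1 + Real.log K1))

/-- KRON (uses ELE, GEO). PROOF. Put `n = s.card`, `E m = ∑_{i ∈ s} e (m x_i)` (`m` an integer), `‖E (-m)‖ = ‖E m‖`,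
`Sg = ∑_{1 ≤ m ≤ 2N} ‖E m‖`. Suppose `|x i - k| > c` for all `i ∈ s` and all `k`. (1) By GEO (1) with `k = round (x i)`:
`‖D N (x i)‖ ≤ 1/(2c)`, so `∑_i ‖D N (x i)‖^4 ≤ (1/(4c^2)) ∑_i ‖D N (x i)‖^2`.
(2) `∑_i ‖D N (x i)‖^2 = ∑_{a, b < N} E (a - b) ≤ N n + 2 N Sg` (for fixed `a` the numbers `a - b`, `b ≠ a`, are distinct and
in `[-N, N]`, not `0`). (3) `∑_i ‖D N (x i)‖^4 = ∑_{a, b, a', b' < N} E (a - b + a' - b')`; the number `R` of quadruples with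
`a + a' = b + b'` is at least `N^3/2` (Cauchy-Schwarz: `N^2` pairs, at most `2N` sums; or
`Finset.le_card_add_mul_addEnergy`; or count the `a'` for given `a, b`), and for fixed `a, b, a'` the numbers
`a - b + a' - b'` are distinct and in `[-2N, 2N]`: the real part of the sum is at least `R n - 2 N^3 Sg`.
Together: `N^3 n/2 - 2 N^3 Sg ≤ (1/(4c^2)) (N n + 2 N Sg) ≤ (N^3/4) (n + 2 Sg)` as `N c ≥ 1`, so `n ≤ 10 Sg`, a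
contradiction to `Sg ≤ n/100`, `n > 0`. -/
def Stmt_KRON : Prop :=
  ∀ (ι : Type) (s : Finset ι) (x : ι → ℝ) (c : ℝ) (N : ℕ), 0 < c → 1 ≤ (N : ℝ) * c → s.Nonempty →
    ∑ m ∈ Icc 1 (2 * N), ‖∑ i ∈ s, e (m * x i)‖ ≤ (s.card : ℝ) / 100 →
    ∃ i ∈ s, ∃ k : ℤ, |x i - k| ≤ c

/-- AVG (divisor sums). PROOF. The pairs `(q, m)` map to `k = m q ∈ [1, K]` (`⌈Q⌉₊ ≥ 1`, `q ≤ 2 Q`, `m ≤ M`,
`2 Q M ≤ K`), and for given `k` there are at most `d(k)` pairs (`q ∣ k` determines `m`). -/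
def Stmt_AVG : Prop :=
  ∀ (g : ℕ → ℝ) (Q Δ : ℝ) (M K : ℕ), (∀ k, 0 ≤ g k) → 1 ≤ Q → 2 * Q * M ≤ K →
    (∀ k, 1 ≤ k → k ≤ K → ((Nat.divisors k).card : ℝ) ≤ Δ) →
    ∑ q ∈ Icc ⌈Q⌉₊ ⌊2 * Q⌋₊, ∑ m ∈ Icc 1 M, g (m * q) ≤ Δ * ∑ k ∈ Icc 1 K, g k

/-- NUM: an inequality for large `G`. PROOF. `Real.isLittleO_pow_log_id_atTop` and relatives, or
`log G ≤ G^δ/δ` (`Real.log_le_rpow_div`) with `δ = η/10`. -/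
def Stmt_NUM : Prop :=
  ∀ C η : ℝ, 0 < C → 0 < η → ∃ G0 : ℝ, 9 ≤ G0 ∧ ∀ G : ℝ, G0 ≤ G →
    2500 * (2 * C * Real.log G + 1) ^ 2 * (11 + 2 * C * Real.log G) ≤ G ^ (5 * η / 8)

/-- DIV: the divisor bound (`Pool.Agent.UHI.m_DIV`, proved in `Pool/Agent/UHI/Div.lean`). -/
def Stmt_DIV : Prop :=
  ∀ (C s : ℝ), 0 < C → 0 < s → ∃ A0 : ℝ, 1 ≤ A0 ∧ ∀ A : ℝ, A0 ≤ A → ∀ R : ℕ, 1 ≤ R → (R : ℝ) ≤ A ^ C →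
    ((Nat.divisors R).card : ℝ) ≤ A ^ s

/-- BQ (uses ELE, MAJ, KRON): a bad prime has a large sum. PROOF. `s = Icc A1 A2 ×ˢ Icc B1 B2`,
`x (a, b) = q (a θ + b ρ) - x0`; `KRON` (contraposition) and
`‖∑_{(a,b)} e (m x)‖ = ‖∑_a e (a (m q θ))‖ ‖∑_b e (b (m q ρ))‖ ≤ W nA (m q θ) W nB (m q ρ)`. -/
def Stmt_BQ : Prop :=
  ∀ (θ ρ x0 c Q : ℝ) (A1 A2 B1 B2 : ℤ) (N : ℕ), A1 ≤ A2 → B1 ≤ B2 → 0 < c → 1 ≤ (N : ℝ) * c →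
    ∀ q ∈ badq θ ρ x0 c Q A1 A2 B1 B2,
      ((A2 - A1 + 1 : ℤ) : ℝ) * ((B2 - B1 + 1 : ℤ) : ℝ) / 100 ≤
        ∑ m ∈ Icc 1 (2 * N), W (A2 - A1 + 1).toNat (((m * q : ℕ) : ℝ) * θ) *
          W (B2 - B1 + 1).toNat (((m * q : ℕ) : ℝ) * ρ)

/-- EX: the main statement of the block. PROOF (assembly of BQ, AVG, TSM, DIV, NUM). `nA = A2 - A1 + 1`,
`nB = B2 - B1 + 1`, `N = ⌈1/c⌉₊ ≤ 1/c + 1`, `M = 2 N`, `K = ⌈2 Q M⌉₊ ≤ 5 Q/c` (`Q ≥ 1`, `c ≤ 1/8`: `2 Q M + 1 ≤ 4 Q/c + 4 Q + 1 ≤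
4 Q/c + 5 Q ≤ 5 Q/c`; so `K ≤ 5 G^(2C) ≤ G^(2C+1)`). `K1 ≥ 2` (SEP for `(1, 0, round θ)`: `1/K1 ≤ 1/2`).
`d(k) ≤ G^(η/8)` for `1 ≤ k ≤ K` (DIV with `2C+1`, `η/8`). By BQ and AVG for `g k = W nA (k θ) W nB (k ρ)`:
`(nA nB/100) #bad ≤ G^(η/8) ∑_{k ≤ K} g k`, and by TSM this is at most
`G^(η/8) 25 (log2 nA + 1) (log2 nB + 1) (2 K + K1 (1 + log K1)) ≤ G^(η/8) 25 (2 C log G + 1)^2 (Q/c) (11 + 2 C log G)`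
(`log2 nA ≤ log nA/log 2 ≤ 2 C log G`, `K1 ≤ Q/c ≤ G^(2C)`), and `1/c ≤ nA nB G^(-η)`. NUM gives
`#bad ≤ Q G^(η/8 - η + 5η/8) = Q G^(-η/4)`. -/
def Stmt_EX : Prop :=
  ∀ C η : ℝ, 0 < C → 0 < η → ∃ G0 : ℝ, 1 ≤ G0 ∧ ∀ G : ℝ, G0 ≤ G →
    ∀ (θ ρ x0 c K1 Q : ℝ) (A1 A2 B1 B2 : ℤ), A1 ≤ A2 → B1 ≤ B2 →
      ((A2 - A1 + 1 : ℤ) : ℝ) ≤ G ^ C → ((B2 - B1 + 1 : ℤ) : ℝ) ≤ G ^ C →
      G ^ (-C) ≤ c → c ≤ 1 / 8 → 1 ≤ Q → Q ≤ G ^ C → 0 < K1 → K1 ≤ Q / c →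
      (∀ a b k : ℤ, |a| ≤ 2 * (A2 - A1 + 1) → |b| ≤ 2 * (B2 - B1) → (a ≠ 0 ∨ b ≠ 0) →
        1 / K1 ≤ |(a : ℝ) * θ + b * ρ - k|) →
      G ^ η ≤ ((A2 - A1 + 1 : ℤ) : ℝ) * ((B2 - B1 + 1 : ℤ) : ℝ) * c →
      ((badq θ ρ x0 c Q A1 A2 B1 B2).card : ℝ) ≤ Q * G ^ (-(η / 4))

/-- PRM: many primes in `[Q, 2 Q]`. PROOF. `H70PNT.pi_tendsto` or `H70PNT.theta_tendsto` (prime number
theorem, `Pool/Agent/Lib_helper70/PNT/PNT.lean` on main: `θ x / x → 1`): `θ (2Q) - θ (Q - 1) ≥ Q/2` for large `Q`, each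
prime contributes at most `log (2Q)`, and `Q/(2 log (2Q)) ≥ Q^(1-η)`. -/
def Stmt_PRM : Prop :=
  ∀ η : ℝ, 0 < η → ∃ Q0 : ℝ, 1 ≤ Q0 ∧ ∀ Q : ℝ, Q0 ≤ Q →
    Q ^ (1 - η) ≤ (((Icc ⌈Q⌉₊ ⌊2 * Q⌋₊).filter Nat.Prime).card : ℝ)

end Pool.Agent.UEX
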