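import Pool.Agent.UEX.Main
import Pool.Agent.ULB.Stmts

/-!
# Block UEX: the interface statement `ULB.Stmt_EX`
-/

set_option autoImplicit false

namespace Pool.Agent.UEX

theorem t_EX : ULB.Stmt_EX := by
  intro C η hC hη
  obtain ⟨G0, hG01, hG0⟩ := main_EX C η hC hη
  refine ⟨G0, ?_⟩
  intro G θ ρ x0 c K1 Q A1 A2 B1 B2 hG hA hB hA2 hB2 hGc hc hQ1 hQ2 hK1 hK1Q hsep hvol F hF
  have h := hG0 G hG θ ρ x0 c K1 Q A1 A2 B1 B2 hA hB (by push_cast; exact hA2)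
    (by push_cast; exact hB2) hGc hc hQ1 hQ2 hK1 hK1Q (by
      intro a b k ha hb hab
      refine hsep a b k ?_ ?_ hab
      · exact_mod_cast ha
      · exact_mod_cast hb) (by push_cast; exact hvol)
  refine le_trans ?_ h
  have h1 : F ⊆ badq θ ρ x0 c Q A1 A2 B1 B2 := by
    intro q hq
    obtain ⟨h1, h2, h3, h4⟩ := hF q hq
    unfold badq
    simp only [Finset.mem_filter, Finset.mem_Icc]
    refine ⟨⟨Nat.ceil_le.2 h2, Nat.le_floor h3⟩, h1, ?_⟩
    rintro ⟨a, b, k, h5, h6, h7, h8, h9⟩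
    exact absurd h9 (not_le.2 (h4 a b k h5 h6 h7 h8))
  exact_mod_cast Finset.card_le_card h1

end Pool.Agent.UEX
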