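import Pool.Agent.UEX.Prm
import Pool.Agent.ULB.Stmts

/-!
# Block UEX: the interface statement `ULB.Stmt_PRM`
-/

set_option autoImplicit false

namespace Pool.Agent.UEX

theorem t_PRM : ULB.Stmt_PRM := by
  intro η hη
  obtain ⟨Q0, hQ01, hQ0⟩ := m_PRM η hη
  refine ⟨Q0, fun Q hQ => ⟨(Finset.Icc ⌈Q⌉₊ ⌊2 * Q⌋₊).filter Nat.Prime, ?_, hQ0 Q hQ⟩⟩
  intro q hq
  obtain ⟨h1, h2⟩ := Finset.mem_filter.1 hq
  obtain ⟨h3, h4⟩ := Finset.mem_Icc.1 h1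
  exact ⟨h2, Nat.ceil_le.1 h3, (Nat.le_floor_iff (by linarith)).1 h4⟩

end Pool.Agent.UEX
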